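import Mathlib
import Pool.Agent.BKW.Stmts
import Pool.Agent.Helper44_Dio.Rol
import Pool.Agent.Helper44_Dio.Hin
import Pool.Agent.Helper67_Dio.Ale
import Pool.Agent.Helper21_DIO.Vdm
import Pool.Agent.Helper21_BKW.SIZ
import Pool.Agent.Helper27_BKW.DRV
import Pool.Agent.Helper52_BKW.CLO
import Pool.Agent.Helper42_BKW.SIG
import Pool.Agent.Helper98_BKW.STP
import Pool.Agent.Helper74_BKW.PAR
import Pool.Agent.Helper68_BKW.BAK
import Pool.Agent.Helper62_BKW.SUB
import Pool.Agent.Helper44_BKW.TWN
import Pool.Agent.Helper28_BKW.EQP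
import Pool.Agent.Helper65_BKW.MRS
import Pool.Agent.Helper44_BKW.SMS
import Pool.Agent.Helper68_BKW.SQP
import Pool.Agent.Helper15_BKW.BCT
import Pool.Agent.Helper70_BKW.PR2
import Pool.Agent.Helper52_BKW.RIG
import Pool.Agent.Helper52_BKW.Fin2

/-!
# In `(ℕ; S, ⊥)` all of arithmetic is definable on almost all numbers and on almost all squares

Let `M` be the set of the natural numbers `y ≥ 2` which are determined, among all natural numbers
`≥ 2`, by the prime divisors of `y` and the prime divisors of `y - 1`.  Then: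

* for all `n ≤ x` but at most `C x exp (- (log x) ^ (1/9))` both `n` and `n ^ 2` belong to `M`;
* in the natural numbers with the successor function and the coprimality relation, the restriction
  to `M` of EVERY arithmetical relation (addition, multiplication, order, ...) is definable without
  parameters; in particular `M` and the set of the perfect squares in `M` are definable.

The proof of the first part.  Let `n = p h`, `p` a large prime not dividing `h`, and let `m` be a number
with the same prime divisors as `n`, such that `m - 1` has the same prime divisors as `n - 1` or as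
`n ^ 2 - 1`.  Then `m = p ^ e h'`, and every prime divisor of `n - 1` divides the number `h ^ e - h'`, which
does not depend on `p`.  If it is zero, then `m = n ^ e`, and `e = 1` or `e = 2`.  Otherwise we use a weak
form of the theorem of Baker for any number of logarithms of primes, with explicit dependence on
this number: `log m ≤ k log X (2 ^ (20 k ^ 3) log X + 2) ^ (16 k ^ 2)` if the number `m (m - 1)` has at most `k`
prime divisors and they are at most `X`.  So there are few possibilities for `e` and `h'`, the number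
`h ^ e - h'` has few prime divisors, and `n - 1` is a product of few prime powers formed of them.
-/

namespace Pool.Agent.Results.MP_0c1440_lc.ArithmeticAlmostAll

open FirstOrder FirstOrder.Language Pool.Agent.SqDef Pool.Agent.BKW

/-- the natural numbers `y ≥ 2` which are determined, among the natural numbers `≥ 2`, by the prime
divisors of `y` and of `y - 1` -/
def M : Set ℕ := {y : ℕ | 2 ≤ y ∧ ∀ m : ℕ, 2 ≤ m → m.primeFactors = y.primeFactors →
  (m - 1).primeFactors = (y - 1).primeFactors → m = y}

/-- In the natural numbers with only the successor function and the coprimality relation, every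
arithmetical relation restricted to `M` is definable without parameters, in particular the set of
the perfect squares in `M`; and for all `n ≤ x` but at most `C x exp (- (log x) ^ (1/9))` both `n` and
`n ^ 2` are in `M`. -/
theorem result :
    ∀ (L : FirstOrder.Language.{0, 0}),
      L = ⟨fun n => PLift (n = 1), fun n => PLift (n = 2)⟩ →
      ∀ (inst : L.Structure ℕ),
        (∀ (f : L.Functions 1) (v : Fin 1 → ℕ),
            FirstOrder.Language.Structure.funMap f v = v 0 + 1) →
        (∀ (r : L.Relations 2) (v : Fin 2 → ℕ),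
            FirstOrder.Language.Structure.RelMap r v ↔ Nat.Coprime (v 0) (v 1)) →
        (∃ C : ℝ, ∀ x : ℕ, 2 ≤ x →
          ({n : ℕ | n ≤ x ∧ ¬ (n ∈ M ∧ n ^ 2 ∈ M)}.ncard : ℝ) ≤
            C * x * Real.exp (-(Real.log x) ^ (1 / 9 : ℝ))) ∧
        (∀ (r : ℕ) (R : Set (Fin r → ℕ)), Set.Definable (∅ : Set ℕ) arithLang R →
          Set.Definable (∅ : Set ℕ) L {v : Fin r → ℕ | (∀ i, v i ∈ M) ∧ v ∈ R}) ∧
        Set.Definable (∅ : Set ℕ) L {v : Fin 1 → ℕ | v 0 ∈ M ∧ IsSquare (v 0)} := by
  intro L hL inst hs hr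
  have hRol : Pool.Agent.DIO.RolStatement := Pool.Agent.DIO.H44.rol
  have hHin : Pool.Agent.DIO.HinStatement := Pool.Agent.DIO.H44.hin
  have hAle : Pool.Agent.DIO.AleStatement := Pool.Agent.DIO.H67.ale hRol hHin
  have hVdm : Pool.Agent.DIO.VdmStatement := Pool.Agent.DIO.H21.vdm
  have hSiz : SizStmt := Pool.Agent.BKW.H21.siz
  have hDrv : DrvStmt := Pool.Agent.BKW.H27.drv
  have hClo : CloStmt := Pool.Agent.BKW.H52.clo hSiz
  have hSig : SigStmt := Pool.Agent.BKW.H42.sig
  have hStp : StpStmt := Pool.Agent.BKW.H98.stp hAle hSiz hDrv hClo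
  have hPar : ParStmt := Pool.Agent.BKW.H74.par
  have hBak : BakStmt := Pool.Agent.BKW.H68.bak hSig hStp hPar hVdm
  have hSub : SubStmt := Pool.Agent.BKW.H62.sub hBak
  have hTwn : TwnStmt := Pool.Agent.BKW.H44.twn
  have hEqp : EqpStmt := Pool.Agent.BKW.H28.eqp
  have hMrs : MrsStmt := Pool.Agent.BKW.H65.mrs
  have hSms : SmsStmt := Pool.Agent.BKW.H44.sms
  have hOmg : OmgStmt := Pool.Agent.BKW.H68.omg
  have hSqp : SqpStmt := Pool.Agent.BKW.H68.sqp
  have hBct : BctStmt := Pool.Agent.BKW.H15.bct hSms
  have hPr2 : Pr2Stmt := Pool.Agent.BKW.H70.pr2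
  have hRig : RigStmt := Pool.Agent.BKW.H52.rig hSub hTwn hEqp hMrs hSms hOmg hSqp hBct hPr2
  have hM : ∀ y : ℕ, y ∈ M ↔ Rig y := fun y => (Pool.Agent.BKW.H52.rig_iff_factors y).symm
  refine ⟨?_, ?_⟩
  · obtain ⟨C, hC⟩ := Pool.Agent.BKW.H52.count hRig
    refine ⟨C, fun x hx => ?_⟩
    have h := hC x hx
    simp only [hM]
    exact h
  · have σ : Nonempty (Sig L) := by
      subst hL
      exact ⟨⟨⟨rfl⟩, ⟨rfl⟩, fun v => hs _ v, fun v => hr _ v⟩⟩
    obtain ⟨σ⟩ := σ
    have key : ∀ (r : ℕ) (R : Set (Fin r → ℕ)), Set.Definable (∅ : Set ℕ) arithLang R →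
        Set.Definable (∅ : Set ℕ) L {v : Fin r → ℕ | (∀ i, v i ∈ M) ∧ v ∈ R} := by
      intro r R hR
      have h := Pool.Agent.BKW.H52.defin σ r R hR
      have he : {v : Fin r → ℕ | (∀ i, v i ∈ M) ∧ v ∈ R} =
          {v : Fin r → ℕ | (∀ i, Rig (v i)) ∧ v ∈ R} := by
        simp only [hM]
      rw [he]
      exact h
    refine ⟨key, ?_⟩
    have h1 := key 1 {v : Fin 1 → ℕ | IsSquare (v 0)} squares_arith
    have he : {v : Fin 1 → ℕ | (∀ i, v i ∈ M) ∧ v ∈ {v : Fin 1 → ℕ | IsSquare (v 0)}} =
        {v : Fin 1 → ℕ | v 0 ∈ M ∧ IsSquare (v 0)} := by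
      ext v
      constructor
      · rintro ⟨h2, h3⟩
        exact ⟨h2 0, h3⟩
      · rintro ⟨h2, h3⟩
        refine ⟨fun i => ?_, h3⟩
        rw [Subsingleton.elim i 0]
        exact h2
    rw [he] at h1
    exact h1

end Pool.Agent.Results.MP_0c1440_lc.ArithmeticAlmostAll
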