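import Mathlib
import Pool.Agent.Sq42_Def.ArithSets
import Pool.Agent.Helper60_DSC.Defs
import Pool.Agent.Helper60_DSC.Game
import Pool.Agent.Helper60_DSC.Ari2
import Pool.Agent.Helper60_DSC.Codr

/-!
# The definable relations of `(ℕ; S, ⊥)`

A relation on the natural numbers is definable without parameters from the successor function and
the coprimality relation if and only if it is arithmetical (definable from the sum and the product)
and, for some `K`, invariant under the relation `Eqv K` of local indistinguishability of tuples:
corresponding entries are equal or `K`-twins, and corresponding differences are equal or both larger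
than `K`.  Two numbers `x, y > K` are `K`-twins (`Twn K x y`) if `x + j` and `y + j` have the same prime
divisors for all integers `j` with `|j| ≤ K`.

In particular the set of the perfect squares is definable if and only if, for some `K`, every
`K`-twin of a square is a square.

The proof.  Definable relations are invariant by an Ehrenfeucht game: if two tuples are equivalent
with radius `3 K`, and one of them is enlarged by a number `z`, then the other one can be enlarged by a
number `z'` such that the enlarged tuples are equivalent with radius `K`.  If `z` is near an entry of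
its tuple, then `z'` is at the same place near the corresponding entry of the other one.  Otherwise
`z' = z`, unless `z` is near an entry `y j` of the other tuple.  In that case `z' ` is a twin of `z`
which is not near an entry: otherwise all twins of `z` are near entries, and shifting from the
entries of the second tuple to the first one is an injective map of the finite set of the twins of `z`
into itself which does not take the value `z`.  Conversely the prime divisors of `y + j`, `|j| ≤ K`,
are described by a formula in terms of the exponent of a power of `2`, and arithmetic on the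
exponents of the powers of `2` is definable (Robinson, Woods, Richard).
-/

namespace Pool.Agent.Results.MP_0c1440_lc.DefinableSets

open FirstOrder FirstOrder.Language Pool.Agent.SqDef Pool.Agent.DSC

/-- In the natural numbers with only the successor function and the coprimality relation:
a relation `R` of any arity is definable without parameters if and only if it is arithmetical and, for
some `K`, closed under `Eqv K`; the set of the perfect squares is definable if and only if, for some
`K`, every `K`-twin of a square is a square; and also if and only if, for some `K`, only finitely many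
squares have a `K`-twin which is not a square. -/
theorem result :
    ∀ (L : FirstOrder.Language.{0, 0}),
      L = ⟨fun n => PLift (n = 1), fun n => PLift (n = 2)⟩ →
      ∀ (inst : L.Structure ℕ),
        (∀ (f : L.Functions 1) (v : Fin 1 → ℕ),
            FirstOrder.Language.Structure.funMap f v = v 0 + 1) →
        (∀ (r : L.Relations 2) (v : Fin 2 → ℕ),
            FirstOrder.Language.Structure.RelMap r v ↔ Nat.Coprime (v 0) (v 1)) →
        (∀ (r : ℕ) (R : Set (Fin r → ℕ)), Set.Definable (∅ : Set ℕ) L R ↔
          (Set.Definable (∅ : Set ℕ) arithLang R ∧ ∃ K : ℕ, ∀ x ∈ R, ∀ y, Eqv K x y → y ∈ R)) ∧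
        (Set.Definable (∅ : Set ℕ) L {v : Fin 1 → ℕ | IsSquare (v 0)} ↔
          ∃ K : ℕ, ∀ n y : ℕ, Twn K (n ^ 2) y → IsSquare y) ∧
        (Set.Definable (∅ : Set ℕ) L {v : Fin 1 → ℕ | IsSquare (v 0)} ↔
          ∃ K : ℕ, {n : ℕ | ∃ y : ℕ, Twn K (n ^ 2) y ∧ ¬ IsSquare y}.Finite) := by
  intro L hL inst hs hr
  have σ : Nonempty (Sig L) ∧ PureL L := by
    subst hL
    exact ⟨⟨⟨⟨rfl⟩, ⟨rfl⟩, fun v => hs _ v, fun v => hr _ v⟩⟩,
      ⟨fun _ f => f.down, fun _ r => r.down, fun f v => hs f v, fun r v => hr r v⟩⟩
  obtain ⟨⟨σ⟩, hP⟩ := σ
  have main : ∀ (r : ℕ) (R : Set (Fin r → ℕ)), Set.Definable (∅ : Set ℕ) L R ↔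
      (Set.Definable (∅ : Set ℕ) arithLang R ∧ ∃ K : ℕ, ∀ x ∈ R, ∀ y, Eqv K x y → y ∈ R) := by
    intro r R
    constructor
    · intro h
      refine ⟨ari hP R h, ?_⟩
      rw [Set.empty_definable_iff] at h
      obtain ⟨φ, rfl⟩ := h
      obtain ⟨K, hK⟩ := formula_eqv hP φ
      exact ⟨K, fun x hx y hxy => hK x y hxy hx⟩
    · rintro ⟨h1, K, h2⟩
      exact codr σ r K R h1 h2
  have sq : Set.Definable (∅ : Set ℕ) L {v : Fin 1 → ℕ | IsSquare (v 0)} ↔
      ∃ K : ℕ, ∀ n y : ℕ, Twn K (n ^ 2) y → IsSquare y := by
    rw [main 1]
    constructor
    · rintro ⟨-, K, hK⟩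
      refine ⟨K, fun n y h => ?_⟩
      refine hK (fun _ => n ^ 2) ⟨n, by simp only [sq]⟩ (fun _ => y) ⟨fun i => Or.inr h, ?_⟩
      intro i j t ht
      show n ^ 2 + t = n ^ 2 ↔ y + t = y
      omega
    · rintro ⟨K, hK⟩
      refine ⟨squares_arith, K, fun x hx y hxy => ?_⟩
      rcases hxy.1 0 with h | h
      · show IsSquare (y 0)
        rw [← h]
        exact hx
      · obtain ⟨n, hn⟩ := hx
        refine hK n (y 0) ?_
        rw [sq, ← hn]
        exact h
  refine ⟨main, sq, sq.trans ⟨?_, ?_⟩⟩
  · rintro ⟨K, hK⟩
    refine ⟨K, ?_⟩
    have : {n : ℕ | ∃ y : ℕ, Twn K (n ^ 2) y ∧ ¬ IsSquare y} = ∅ := by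
      ext n
      constructor
      · rintro ⟨y, h1, h2⟩
        exact h2 (hK n y h1)
      · intro h
        exact h.elim
    rw [this]
    exact Set.finite_empty
  · rintro ⟨K, hK⟩
    obtain ⟨B, hB⟩ := hK.bddAbove
    refine ⟨K + B ^ 2, fun n y h => ?_⟩
    by_contra hy
    have h1 : n ≤ B := hB ⟨y, h.mono (by omega), hy⟩
    have h2 : n ^ 2 ≤ B ^ 2 := Nat.pow_le_pow_left h1 2
    have h3 := h.1
    omega

end Pool.Agent.Results.MP_0c1440_lc.DefinableSets
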