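import Mathlib
import Pool.Agent.Sq42_Ex.Form
import Pool.Agent.Sq42_Ex.Choice

/-!
# Boolean combinations of existential formulas do not even approximate the perfect squares

Consider the natural numbers with the successor function and the coprimality relation.  If a set `E`
is a Boolean combination of sets defined by existential formulas with parameters, then up to large
`N` at least `c √N` numbers belong to exactly one of `E` and the set of perfect squares, for some
`c > 0`.  So `E` is not better than the empty set.

The proof: two large numbers `y`, `y'` which are congruent modulo `B !`, and such that all the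
numbers at distance at most `D` from them have at least `t` prime factors above `B`, cannot be
distinguished by such formulas, and this is applied to squares and non-squares.
-/

namespace Pool.Agent.Results.MP_0c1440_lc.ExistentialErrors

open FirstOrder FirstOrder.Language Pool.Agent.SqEx

/-- the sets defined in `ℕ` by existential formulas of `L` with one free variable and arbitrary
parameters: the free variable `Sum.inl ()` has the value `n`, the variable `Sum.inr c` has the
value `c` -/
def ExistentialSets (L : FirstOrder.Language.{0, 0}) [L.Structure ℕ] : Set (Set ℕ) :=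
  {A : Set ℕ | ∃ φ : L.Formula (Unit ⊕ ℕ), BoundedFormula.IsExistential φ ∧
    A = {n : ℕ | φ.Realize (Sum.elim (fun _ => n) id)}}

/-- In the natural numbers with only the successor function and the coprimality relation, let `E` be
a Boolean combination of sets defined by existential formulas with parameters.  Then there is a
`c > 0` such that for all large `N` at least `c √N` numbers `n ≤ N` belong to exactly one of `E` and
the set of perfect squares.  In particular `E` is not the set of perfect squares. -/
theorem result :
    ∀ (L : FirstOrder.Language.{0, 0}),
      L = ⟨fun n => PLift (n = 1), fun n => PLift (n = 2)⟩ →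
      ∀ (inst : L.Structure ℕ),
        (∀ (f : L.Functions 1) (v : Fin 1 → ℕ),
            FirstOrder.Language.Structure.funMap f v = v 0 + 1) →
        (∀ (r : L.Relations 2) (v : Fin 2 → ℕ),
            FirstOrder.Language.Structure.RelMap r v ↔ Nat.Coprime (v 0) (v 1)) →
        ∀ E ∈ BooleanSubalgebra.closure (ExistentialSets L),
          (∃ c : ℝ, 0 < c ∧ ∃ N₀ : ℕ, ∀ N : ℕ, N₀ ≤ N →
            c * Real.sqrt N ≤ (({n : ℕ | n ≤ N ∧ ¬ (n ∈ E ↔ IsSquare n)}.ncard : ℕ) : ℝ)) ∧
          E ≠ {n : ℕ | IsSquare n} := by
  intro L hL inst hs hr E hE
  have o : Only L := by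
    subst hL
    exact ⟨fun _ f => f.down, fun _ r => r.down, fun f v => hs f v, fun r v => hr r v⟩
  obtain ⟨B, D, t, T, h⟩ := boolean_rich o E hE
  have main := count_errors E B D t T h
  refine ⟨main, fun hEq => ?_⟩
  obtain ⟨c, hc, N₀, hN⟩ := main
  have h1 := hN (N₀ + 1) (by omega)
  have h2 : {n : ℕ | n ≤ N₀ + 1 ∧ ¬ (n ∈ E ↔ IsSquare n)} = ∅ := by
    rw [hEq]
    ext n
    simp
  rw [h2, Set.ncard_empty] at h1
  have h3 : 0 < Real.sqrt ((N₀ + 1 : ℕ) : ℝ) := Real.sqrt_pos.2 (by positivity)
  have h4 := mul_pos hc h3
  simp only [Nat.cast_zero] at h1
  linarith

end Pool.Agent.Results.MP_0c1440_lc.ExistentialErrors
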