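import Mathlib
import Pool.Agent.Sq42_Def.ArithSets
import Pool.Agent.Sq21_Count.Count

/-!
# Perfect squares are definable in `(ℕ; S, ⊥)` up to a very sparse set

For every arithmetical set `A` (every set of natural numbers definable from addition and
multiplication), in particular for the set of perfect squares, and for every `ε > 0` there is a
first-order formula in the language of the successor and coprimality which defines `A` up to an
exceptional set having only `O(N ^ ε)` elements below `N`.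

The formula says: the least positive integer `z` such that `z + j` and `y + j` have the same prime
divisors for all `j ≤ K` is in `A`.  This is expressible because the arithmetic of the exponents of
the powers of `2` is definable (J. Robinson, D. Richard), and because a prime `p` is linked in a
definable way with the number `2 ^ p`.  If `y` is not the least number of its class, then the
product of the radicals of `y, ..., y + K` is at most a constant times `y`, and this is rare.
-/

namespace Pool.Agent.Results.MP_0c1440_lc.SparseApprox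

open FirstOrder FirstOrder.Language Pool.Agent.SqDef

/-- `A` is, up to sparse sets, definable without parameters in the structure `ℕ` for the
language `L`: for every `ε > 0` there are a definable set `E` and a constant `C` such that for
every `N ≥ 1` at most `C * N ^ ε` numbers `n ≤ N` belong to exactly one of `E` and `A`. -/
def DefinableUpToSparse (L : FirstOrder.Language.{0, 0}) [L.Structure ℕ] (A : Set ℕ) : Prop :=
  ∀ ε : ℝ, 0 < ε → ∃ E : Set ℕ, Set.Definable (∅ : Set ℕ) L {v : Fin 1 → ℕ | v 0 ∈ E} ∧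
    ∃ C : ℝ, ∀ N : ℕ, 1 ≤ N →
      (({n : ℕ | n ≤ N ∧ ¬ (n ∈ E ↔ n ∈ A)}.ncard : ℕ) : ℝ) ≤ C * (N : ℝ) ^ ε

/-- In the natural numbers with only the successor function and the coprimality relation, every
arithmetical set (every set definable without parameters from the sum and the product), in
particular the set of perfect squares, is definable without parameters up to sparse sets (at most
`C * N ^ ε` errors below `N`, for every `ε > 0`). -/
theorem result :
    ∀ (L : FirstOrder.Language.{0, 0}),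
      L = ⟨fun n => PLift (n = 1), fun n => PLift (n = 2)⟩ →
      ∀ (inst : L.Structure ℕ),
        (∀ (f : L.Functions 1) (v : Fin 1 → ℕ),
            FirstOrder.Language.Structure.funMap f v = v 0 + 1) →
        (∀ (r : L.Relations 2) (v : Fin 2 → ℕ),
            FirstOrder.Language.Structure.RelMap r v ↔ Nat.Coprime (v 0) (v 1)) →
        ∀ A : Set ℕ, Set.Definable (∅ : Set ℕ) arithLang {v : Fin 1 → ℕ | v 0 ∈ A} →
          DefinableUpToSparse L A := by
  intro L hL _ hs hr A hA ε hε
  have σ : Nonempty (Sig L) := by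
    subst hL
    exact ⟨⟨⟨rfl⟩, ⟨rfl⟩, fun v => hs _ v, fun v => hr _ v⟩⟩
  obtain ⟨σ⟩ := σ
  obtain ⟨K, C, hC⟩ := Pool.Agent.SqCount.count_ncard ε hε
  obtain ⟨B, hB, hB'⟩ := exists_least σ (A := fun n => n ∈ A) (arith_E1 σ hA) K
  refine ⟨{y | B y}, D1.definable hB, C + 1, fun N hN => ?_⟩
  have hsub : {n : ℕ | n ≤ N ∧ ¬ (n ∈ {y | B y} ↔ n ∈ A)} ⊆
      {0} ∪ {y : ℕ | 1 ≤ y ∧ y ≤ N ∧ ∃ x, 1 ≤ x ∧ x < y ∧
        ∀ j, j ≤ K → ∀ p : ℕ, p.Prime → (p ∣ x + j ↔ p ∣ y + j)} := by
    rintro n ⟨hn, hne⟩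
    rcases Nat.eq_zero_or_pos n with h0 | h0
    · left; exact h0
    · right
      refine ⟨h0, hn, ?_⟩
      by_contra hcon
      exact hne (hB' n h0 hcon)
  have hfin : {y : ℕ | 1 ≤ y ∧ y ≤ N ∧ ∃ x, 1 ≤ x ∧ x < y ∧
        ∀ j, j ≤ K → ∀ p : ℕ, p.Prime → (p ∣ x + j ↔ p ∣ y + j)}.Finite :=
    (Set.finite_Iic N).subset fun y hy => hy.2.1
  have h1 := (Set.ncard_le_ncard hsub ((Set.finite_singleton 0).union hfin)).trans
    (Set.ncard_union_le _ _)
  rw [Set.ncard_singleton] at h1
  have h2 : (1 : ℝ) ≤ (N : ℝ) ^ ε := Real.one_le_rpow (by exact_mod_cast hN) hε.le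
  have h3 := hC N
  calc (({n : ℕ | n ≤ N ∧ ¬ (n ∈ {y | B y} ↔ n ∈ A)}.ncard : ℕ) : ℝ)
      ≤ ((1 + {y : ℕ | 1 ≤ y ∧ y ≤ N ∧ ∃ x, 1 ≤ x ∧ x < y ∧
        ∀ j, j ≤ K → ∀ p : ℕ, p.Prime → (p ∣ x + j ↔ p ∣ y + j)}.ncard : ℕ) : ℝ) := by
        exact_mod_cast h1
    _ = 1 + (({y : ℕ | 1 ≤ y ∧ y ≤ N ∧ ∃ x, 1 ≤ x ∧ x < y ∧
        ∀ j, j ≤ K → ∀ p : ℕ, p.Prime → (p ∣ x + j ↔ p ∣ y + j)}.ncard : ℕ) : ℝ) := by
        push_cast; ring
    _ ≤ (N : ℝ) ^ ε + C * (N : ℝ) ^ ε := add_le_add h2 h3
    _ = (C + 1) * (N : ℝ) ^ ε := by ring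

/-- The case of the perfect squares. -/
theorem squares (L : FirstOrder.Language.{0, 0})
    (hL : L = ⟨fun n => PLift (n = 1), fun n => PLift (n = 2)⟩) (inst : L.Structure ℕ)
    (hs : ∀ (f : L.Functions 1) (v : Fin 1 → ℕ), Structure.funMap f v = v 0 + 1)
    (hr : ∀ (r : L.Relations 2) (v : Fin 2 → ℕ),
      Structure.RelMap r v ↔ Nat.Coprime (v 0) (v 1)) :
    DefinableUpToSparse L {n : ℕ | IsSquare n} :=
  result L hL inst hs hr _ squares_arith

end Pool.Agent.Results.MP_0c1440_lc.SparseApprox
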